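import Pool.Agent.H84.FK.Targets

set_option autoImplicit false

namespace Pool.Agent.H19.FKC1

open Pool.Agent.H84.FK

theorem pf_c1 (hS2 : T_S2) : T_C1 := by
  intro G _ A B B0 hCE
  refine ⟨?_, fun L hBL hL => ?_⟩
  · intro hB
    apply hCE.ns
    refine hS2 G B0 hCE.abB fun x y hx hy => ?_
    exact hCE.two.2 x (hB ▸ Subgroup.mem_top x) y (hB ▸ Subgroup.mem_top y) hx hy
  · have hfac : ∀ g ∈ L, ∃ a ∈ A, a ∈ L ∧ ∃ b ∈ B, b ∈ L ∧ g = a * b := by
      intro g hg
      obtain ⟨a, ha, b, hb, e⟩ := hCE.fac g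
      refine ⟨a, ha, ?_, b, hb, hBL hb, e⟩
      have : a = g * b⁻¹ := by rw [e]; group
      rw [this]
      exact L.mul_mem hg (L.inv_mem (hBL hb))
    have hLs : Group.IsSolvable L := hCE.sub L hL hfac
    have hle : Subgroup.normalClosure ((A ⊓ L : Subgroup G) : Set G) ≤ L := by
      unfold Subgroup.normalClosure
      rw [Subgroup.closure_le]
      intro x hx
      rw [Group.mem_conjugatesOfSet_iff] at hx
      obtain ⟨d, hd, hconj⟩ := hx
      obtain ⟨g, hg⟩ := isConj_iff.1 hconj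
      obtain ⟨hdA, hdL⟩ := Subgroup.mem_inf.1 hd
      obtain ⟨a, ha, b, hb, e⟩ := hCE.fac g⁻¹
      have h1 : g = b⁻¹ * a⁻¹ := by
        have : g = (g⁻¹)⁻¹ := (inv_inv g).symm
        rw [this, e]; group
      have h2 : a⁻¹ * d = d * a⁻¹ := hCE.abA _ (A.inv_mem ha) _ hdA
      have h3 : x = b⁻¹ * d * b := by
        rw [← hg, h1]
        calc b⁻¹ * a⁻¹ * d * (b⁻¹ * a⁻¹)⁻¹ = b⁻¹ * (a⁻¹ * d) * (a * b) := by group
          _ = b⁻¹ * (d * a⁻¹) * (a * b) := by rw [h2]
          _ = b⁻¹ * d * b := by group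
      show x ∈ L
      rw [h3]
      exact L.mul_mem (L.mul_mem (L.inv_mem (hBL hb)) hdL) (hBL hb)
    have hsol : Group.IsSolvable (Subgroup.normalClosure ((A ⊓ L : Subgroup G) : Set G)) :=
      Group.isSolvable_of_isSolvable_injective (Subgroup.inclusion_injective hle)
    have hbot := hCE.quo _ Subgroup.normalClosure_normal hsol
    apply le_antisymm _ hBL
    intro g hg
    obtain ⟨a, ha, haL, b, hb, hbL, e⟩ := hfac g hg
    have : a ∈ Subgroup.normalClosure ((A ⊓ L : Subgroup G) : Set G) :=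
      Subgroup.subset_normalClosure (Subgroup.mem_inf.2 ⟨ha, haL⟩)
    rw [hbot, Subgroup.mem_bot] at this
    rw [e, this, one_mul]
    exact hb

end Pool.Agent.H19.FKC1
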