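import Pool.Agent.H84.FK.Targets

set_option autoImplicit false

namespace Pool.Agent.H19.FKC2

open Pool.Agent.H84.FK

theorem mem_norm {G : Type} [Group G] [Finite G] (X : Subgroup G) (g : G)
    (h : ∀ x ∈ X, g * x * g⁻¹ ∈ X) : g ∈ Subgroup.normalizer (X : Set G) := by
  have hinj : Function.Injective (fun x : X => (⟨g * x.1 * g⁻¹, h x.1 x.2⟩ : X)) := by
    intro x y hxy
    have h1 : g * x.1 * g⁻¹ = g * y.1 * g⁻¹ := congrArg Subtype.val hxy
    exact Subtype.ext (mul_left_cancel (mul_right_cancel h1))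
  have hsurj := Finite.injective_iff_surjective.1 hinj
  rw [Subgroup.mem_normalizer_iff]
  intro y
  refine ⟨h y, fun hy => ?_⟩
  obtain ⟨x, hx⟩ := hsurj ⟨_, hy⟩
  have h1 : g * x.1 * g⁻¹ = g * y * g⁻¹ := congrArg Subtype.val hx
  have h2 : x.1 = y := mul_left_cancel (mul_right_cancel h1)
  rw [← h2]
  exact x.2

theorem pf_c2 (hC1 : T_C1) (hS2 : T_S2) : T_C2 := by
  intro G _ A B B0 hCE X hX hXB hBX g hg
  have := hCE.fin
  obtain ⟨hB, hmax⟩ := hC1 G A B B0 hCE
  have hle : B ≤ Subgroup.normalizer (X : Set G) := fun b hb => mem_norm X b (hBX b hb)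
  by_cases hN : Subgroup.normalizer (X : Set G) = ⊤
  · exfalso
    apply hX
    apply hCE.quo X (Subgroup.normalizer_eq_top_iff.1 hN)
    have hBs : Group.IsSolvable B := hCE.sub B hB fun b hb =>
      ⟨1, A.one_mem, B.one_mem, b, hb, hb, (one_mul b).symm⟩
    exact Group.isSolvable_of_isSolvable_injective (Subgroup.inclusion_injective hXB)
  · rw [← hmax _ hle hN]
    exact mem_norm X g hg

end Pool.Agent.H19.FKC2
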