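import Pool.Agent.H84.FK.Targets2

/-!
Module FF of the board fk2_modules: theorem F2 from the non-existence of a least counterexample.
-/

set_option autoImplicit false

namespace Pool.Agent.H19.FKFF

open Pool.Agent.H84.FK

theorem ff_aux (hNC2 : T_NC2) : ∀ (n : ℕ) (G : Type) [Group G] [Finite G]
    (A A0 B B0 : Subgroup G), Nat.card G = n → Fac A B → Ab A0 → Ab B0 → Two A A0 → Two B B0 →
    Group.IsSolvable G := by
  intro n
  induction n using Nat.strong_induction_on with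
  | _ n ih =>
  intro G _ _ A A0 B B0 hn hF hA0 hB0 hTA hTB
  by_contra hns
  have hquot : ∀ (N : Subgroup G) [N.Normal], N ≠ ⊥ → Group.IsSolvable (G ⧸ N) := by
    intro N hN hNb
    have hlt : Nat.card (G ⧸ N) < n := by
      rw [← hn, ← Subgroup.card_mul_index N, Subgroup.index]
      have h1 : 1 < Nat.card N := by
        rcases Nat.lt_or_ge 1 (Nat.card N) with h | h
        · exact h
        · exact absurd (Subgroup.eq_bot_of_card_le N h) hNb
      have h2 : 0 < Nat.card (G ⧸ N) := Nat.card_pos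
      nlinarith
    have hab : ∀ X : Subgroup G, Ab X → Ab (X.map (QuotientGroup.mk' N)) := by
      rintro X hX _ ⟨x, hx, rfl⟩ _ ⟨y, hy, rfl⟩
      rw [← map_mul, ← map_mul, hX x hx y hy]
    have htwo : ∀ X Y : Subgroup G, Two X Y →
        Two (X.map (QuotientGroup.mk' N)) (Y.map (QuotientGroup.mk' N)) := by
      intro X Y hT
      refine ⟨Subgroup.map_mono hT.1, ?_⟩
      rintro _ ⟨x, hx, rfl⟩ _ ⟨y, hy, rfl⟩ hx0 hy0
      refine ⟨x * y, hT.2 x hx y hy (fun h => hx0 ⟨x, h, rfl⟩) (fun h => hy0 ⟨y, h, rfl⟩),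
        map_mul _ _ _⟩
    refine ih _ hlt (G ⧸ N) (A.map (QuotientGroup.mk' N)) (A0.map (QuotientGroup.mk' N))
      (B.map (QuotientGroup.mk' N)) (B0.map (QuotientGroup.mk' N)) rfl ?_
      (hab _ hA0) (hab _ hB0) (htwo _ _ hTA) (htwo _ _ hTB)
    intro g
    obtain ⟨g, rfl⟩ := QuotientGroup.mk'_surjective N g
    obtain ⟨a, ha, b, hb, rfl⟩ := hF g
    exact ⟨_, ⟨a, ha, rfl⟩, _, ⟨b, hb, rfl⟩, map_mul _ _ _⟩
  refine hNC2 G A A0 B B0 ⟨inferInstance, hF, hA0, hB0, hTA, hTB, hns, ?_, ?_, hquot⟩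
  · intro L hL hLF
    have hlt : Nat.card L < n := by
      rw [← hn]
      refine lt_of_le_of_ne (Subgroup.card_le_card_group L) fun h => hL ?_
      exact Subgroup.eq_top_of_card_eq L h
    have hab : ∀ X : Subgroup G, Ab X → Ab (X.subgroupOf L) := fun X hX x hx y hy =>
      Subtype.ext (hX x.1 hx y.1 hy)
    have htwo : ∀ X Y : Subgroup G, Two X Y → Two (X.subgroupOf L) (Y.subgroupOf L) :=
      fun X Y hT => ⟨fun x hx => hT.1 hx, fun x hx y hy hx0 hy0 => hT.2 x.1 hx y.1 hy hx0 hy0⟩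
    refine ih _ hlt L (A.subgroupOf L) (A0.subgroupOf L) (B.subgroupOf L) (B0.subgroupOf L) rfl ?_
      (hab _ hA0) (hab _ hB0) (htwo _ _ hTA) (htwo _ _ hTB)
    intro g
    obtain ⟨a, ha, haL, b, hb, hbL, hg⟩ := hLF g.1 g.2
    exact ⟨⟨a, haL⟩, ha, ⟨b, hbL⟩, hb, Subtype.ext hg⟩
  · intro N hN hNs
    by_contra hNb
    exact hns ((Group.isSolvable_iff_subgroup_quotient N).2 ⟨hNs, hquot N hNb⟩)

/-- THEOREM F2 -/
theorem pf_ff (hNC2 : T_NC2) : T_FF := by
  intro G _ _ A A0 B B0 hF hA0 hB0 hTA hTB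
  exact ff_aux hNC2 _ G A A0 B B0 rfl hF hA0 hB0 hTA hTB

end Pool.Agent.H19.FKFF
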