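import Pool.Agent.H84.FK.Targets3

/-!
Module LCT of the board fk2_modules: transfer to a subgroup controlling its own fusion.
-/

set_option autoImplicit false

namespace Pool.Agent.H19.FKLCT

open Pool.Agent.H84.FK Subgroup MulAction

/-- transfer of an element of `M`, when `M` controls fusion in `M` -/
theorem transfer_eq {G C : Type} [Group G] [CommGroup C] [Finite G] (M : Subgroup G)
    (hfus : ∀ y ∈ M, ∀ g : G, g⁻¹ * y * g ∈ M → ∃ m ∈ M, g⁻¹ * y * g = m⁻¹ * y * m)
    (φ : M →* C) (x : M) : MonoidHom.transfer φ (x : G) = φ x ^ M.index := by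
  classical
  let _ := M.fintypeQuotientOfFiniteIndex
  let _ : Fintype (Quotient (orbitRel (zpowers (x : G)) (G ⧸ M))) := Fintype.ofFinite _
  rw [MonoidHom.transfer_eq_prod_quotient_orbitRel_zpowers_quot]
  have key : ∀ (k : ℕ) (g₀ : G) (h : g₀⁻¹ * (x : G) ^ k * g₀ ∈ M),
      φ ⟨g₀⁻¹ * (x : G) ^ k * g₀, h⟩ = φ x ^ k := by
    intro k g₀ h
    obtain ⟨m, hm, he⟩ := hfus ((x : G) ^ k) (M.pow_mem x.2 k) g₀ h
    have h1 : (⟨g₀⁻¹ * (x : G) ^ k * g₀, h⟩ : M) = (⟨m, hm⟩ : M)⁻¹ * x ^ k * ⟨m, hm⟩ :=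
      Subtype.ext he
    rw [h1, map_mul, map_mul, map_inv, map_pow, mul_comm (φ ⟨m, hm⟩)⁻¹, mul_assoc,
      inv_mul_cancel, mul_one]
  simp_rw [key]
  rw [Finset.prod_pow_eq_pow_sum]
  congr 1
  rw [index_eq_card, Nat.card_eq_fintype_card,
    Fintype.card_congr (selfEquivSigmaOrbits (zpowers (x : G)) (G ⧸ M)), Fintype.card_sigma]
  refine Finset.sum_congr rfl fun q _ => ?_
  rw [minimalPeriod_eq_card]
  exact Fintype.card_congr (Equiv.refl _)

theorem pf_lct : T_LCT := by
  intro G _ _ M M1 hfus hodd htwo hne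
  classical
  obtain ⟨hle, h2⟩ := htwo
  let φ : M →* ℤˣ :=
    { toFun := fun m => if (m : G) ∈ M1 then 1 else -1
      map_one' := by simp [M1.one_mem]
      map_mul' := by
        intro a b
        by_cases ha : (a : G) ∈ M1
        · by_cases hb : (b : G) ∈ M1
          · simp [ha, hb, M1.mul_mem ha hb]
          · have : (a : G) * b ∉ M1 := fun h => hb ((M1.mul_mem_cancel_left ha).1 h)
            simp [ha, hb, this]
        · by_cases hb : (b : G) ∈ M1
          · have : (a : G) * b ∉ M1 := fun h => ha ((M1.mul_mem_cancel_right hb).1 h)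
            simp [ha, hb, this]
          · have := h2 a a.2 b b.2 ha hb
            simp [ha, hb, this] }
  have hφ : ∀ m : M, φ m = if (m : G) ∈ M1 then 1 else -1 := fun _ => rfl
  have hV := transfer_eq M hfus φ
  have hind : Odd M.index := by
    rw [← Nat.not_even_iff_odd, even_iff_two_dvd]; exact hodd
  refine ⟨(MonoidHom.transfer φ).ker, inferInstance, ?_, ?_⟩
  · intro htop
    obtain ⟨m, hm, hm1⟩ : ∃ m ∈ M, m ∉ M1 := by
      by_contra hcon
      push Not at hcon
      exact hne (le_antisymm hle hcon)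
    have h3 : m ∈ (MonoidHom.transfer φ).ker := by rw [htop]; trivial
    rw [MonoidHom.mem_ker] at h3
    have h4 := hV ⟨m, hm⟩
    rw [hφ, if_neg hm1, hind.neg_one_pow] at h4
    change MonoidHom.transfer φ m = -1 at h4
    rw [h3] at h4
    exact absurd h4 (by decide)
  · intro m hm
    rw [MonoidHom.mem_ker]
    have h4 := hV ⟨m, hle hm⟩
    rw [hφ, if_pos hm, one_pow] at h4
    exact h4

end Pool.Agent.H19.FKLCT
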