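import Pool.Agent.H84.FK.Targets

set_option autoImplicit false

namespace Pool.Agent.H19.FKNOCE

open Pool.Agent.H84.FK

theorem pf_noce (hOV : T_OV) (hT1 : T_T1) (hT2 : T_T2) (hT3 : T_T3) : T_NOCE := by
  intro G _ A B B0 hCE
  obtain ⟨M, hM, ⟨h1, h2⟩ | ⟨t, htB, htB0, htt, htM, h⟩⟩ := hOV G A B B0 hCE
  · by_cases hx : ∃ x ∈ M, x ∈ B ∧ x ≠ 1
    · exact hT1 G A B B0 M hCE hM h1 h2 hx
    · push Not at hx
      exact hT3 G A B B0 M hCE hM hx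
  · exact hT2 G A B B0 M t hCE hM htB htB0 htt htM h

end Pool.Agent.H19.FKNOCE
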