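import Pool.Agent.H84.FK.Targets3

/-!
Module SGA of the board fk2_modules: the sign character of the action on the cosets of `A`.
-/

set_option autoImplicit false

namespace Pool.Agent.H19.FKSGA

open Pool.Agent.H84.FK

/-- the sign of a fixed point free involution on `2 b` points, `b` odd -/
theorem sign_invol {X : Type} [Fintype X] [DecidableEq X] (σ : Equiv.Perm X) (h2 : σ * σ = 1)
    (hfix : ∀ x, σ x ≠ x) (b : ℕ) (hb : ¬ 2 ∣ b) (hcard : Nat.card X = 2 * b) :
    Equiv.Perm.sign σ = -1 := by
  classical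
  have hX : 0 < Nat.card X := by
    rcases Nat.eq_zero_or_pos b with h | h
    · rw [h] at hb; exact absurd (dvd_zero 2) hb
    · omega
  have hne : σ ≠ 1 := by
    intro h
    have : Nonempty X := (Nat.card_pos_iff.1 hX).1
    obtain ⟨x⟩ := this
    exact hfix x (by rw [h]; rfl)
  have hord : orderOf σ = 2 := by
    apply orderOf_eq_prime
    · rw [pow_two, h2]
    · exact hne
  obtain ⟨n, hn⟩ := Equiv.Perm.cycleType_prime_order (σ := σ) (by rw [hord]; norm_num)
  have hsum : σ.cycleType.sum = 2 * b := by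
    rw [Equiv.Perm.sum_cycleType, ← hcard, Nat.card_eq_fintype_card]
    have : σ.support = Finset.univ := by
      ext x
      simp only [Equiv.Perm.mem_support, Finset.mem_univ, iff_true]
      exact hfix x
    rw [this, Finset.card_univ]
  have hc : Multiset.card σ.cycleType = n + 1 := by rw [hn, Multiset.card_replicate]
  have hnb : n + 1 = b := by
    rw [hn, Multiset.sum_replicate, hord, smul_eq_mul] at hsum
    omega
  rw [Equiv.Perm.sign_of_cycleType, hsum, hc, hnb]
  have he : Odd (2 * b + b) := by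
    have h3 : Odd b := by
      rw [← Nat.not_even_iff_odd, even_iff_two_dvd]; exact hb
    exact (even_two_mul b).add_odd h3
  exact he.neg_one_pow

theorem pf_sga (hD3 : T_D3) (hD4 : T_D4) : T_SGA := by
  intro G _ A A0 B B0 hce hodd
  have := hce.fin
  classical
  obtain ⟨-, -, hcA, hcB, hcG, -, -⟩ := hD4 G A A0 B B0 hce
  have : Fintype (G ⧸ A) := Fintype.ofFinite _
  have hidx : Nat.card (G ⧸ A) = 2 * Nat.card B0 := by
    have h1 := Subgroup.card_mul_index A
    have h2 : 0 < Nat.card A0 := Nat.card_pos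
    have h3 : Nat.card (G ⧸ A) = A.index := rfl
    rw [h3]
    rw [hcA, hcG] at h1
    have h4 : 2 * Nat.card A0 * A.index = 2 * Nat.card A0 * (2 * Nat.card B0) := by
      rw [h1]; ring
    exact Nat.eq_of_mul_eq_mul_left (by omega) h4
  set χ : G →* ℤˣ := Equiv.Perm.sign.comp (MulAction.toPermHom G (G ⧸ A)) with hχ
  have hval : ∀ x : G, χ x ≠ 1 → χ x = -1 := fun x hx => (Int.units_eq_one_or _).resolve_left hx
  have hs : ∀ s ∈ B, s ∉ B0 → s * s = 1 → χ s = -1 := by
    intro s hs hs0 hss
    rw [hχ]
    refine sign_invol (MulAction.toPermHom G (G ⧸ A) s) ?_ ?_ (Nat.card B0) hodd hidx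
    · rw [← map_mul, hss, map_one]
    · intro x hx
      obtain ⟨g, rfl⟩ := QuotientGroup.mk_surjective x
      have h1 : ((s * g : G) : G ⧸ A) = (g : G ⧸ A) := hx
      have h2 : g⁻¹ * (s * g) ∈ A := QuotientGroup.eq.1 h1.symm
      have h3 : g⁻¹ * s * g = 1 := by
        refine hD3 G A A0 B B0 hce g⁻¹ (g⁻¹ * s * g) s ?_ hs ?_
        · rw [mul_assoc]; exact h2
        · rw [inv_inv]
      have h4 : s = 1 := by
        have h5 : s = g * (g⁻¹ * s * g) * g⁻¹ := by group
        rw [h5, h3]; group
      exact hs0 (by rw [h4]; exact B0.one_mem)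
  refine ⟨χ.ker, inferInstance, ?_, ?_, ?_, ?_⟩
  · intro x y hx hy
    rw [MonoidHom.mem_ker] at hx hy ⊢
    rw [map_mul, hval x hx, hval y hy]
    decide
  · intro x hx
    rw [MonoidHom.mem_ker]
    by_contra h
    have h1 := hval x h
    have h2 : (χ x) ^ orderOf x = 1 := by rw [← map_pow, pow_orderOf_eq_one, map_one]
    have h3 : Odd (orderOf x) := by
      rw [← Nat.not_even_iff_odd, even_iff_two_dvd]; exact hx
    rw [h1, h3.neg_one_pow] at h2
    exact absurd h2 (by decide)
  · intro s hsB hs0 hss h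
    rw [MonoidHom.mem_ker, hs s hsB hs0 hss] at h
    exact absurd h (by decide)
  · -- an involution in `B`
    have h2B : 2 ∣ Nat.card B := by rw [hcB]; exact dvd_mul_right _ _
    have : Fact (Nat.Prime 2) := ⟨Nat.prime_two⟩
    obtain ⟨s, hs2⟩ := exists_prime_orderOf_dvd_card' 2 h2B
    have hss : (s : G) * s = 1 := by
      have h := pow_orderOf_eq_one s
      rw [hs2, pow_two] at h
      exact congrArg Subtype.val h
    have hs0 : (s : G) ∉ B0 := by
      intro h
      have h1 : orderOf (⟨(s : G), h⟩ : B0) = 2 := by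
        rw [← Subgroup.orderOf_coe, ← hs2, ← Subgroup.orderOf_coe s]
      have h3 := orderOf_dvd_natCard (⟨(s : G), h⟩ : B0)
      rw [h1] at h3
      exact hodd h3
    have hχs := hs s s.2 hs0 hss
    have hindex : χ.ker.index = 2 := by
      rw [Subgroup.index_eq_two_iff]
      refine ⟨s, fun b => ?_⟩
      rw [MonoidHom.mem_ker, MonoidHom.mem_ker, map_mul, hχs]
      by_cases hb : χ b = 1
      · right
        refine ⟨hb, ?_⟩
        rw [hb]
        decide
      · left
        refine ⟨?_, hb⟩
        rw [hval b hb]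
        decide
    rw [← Subgroup.card_mul_index χ.ker, hindex, mul_comm]

end Pool.Agent.H19.FKSGA
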