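import Pool.Agent.H84.FK.Targets3

/-!
Module SGR of the board fk2_modules: the sign of the regular representation.
-/

set_option autoImplicit false

namespace Pool.Agent.H19.FKSGR

open Pool.Agent.H84.FK

/-- the sign of left multiplication by an element of even order and odd index -/
theorem sign_regular {K : Type} [Group K] [Fintype K] [DecidableEq K] (c : K)
    (h2 : 2 ∣ orderOf c) (ho : ¬ 2 ∣ (Nat.card K / orderOf c)) :
    Equiv.Perm.sign (MulAction.toPermHom K K c) = -1 := by
  classical
  set σ : Equiv.Perm K := MulAction.toPermHom K K c with hσ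
  set n := orderOf c with hn
  have hn0 : 0 < n := orderOf_pos c
  have hpow : ∀ (l : ℕ) (x : K), (σ ^ l) x = c ^ l * x := by
    intro l x
    rw [hσ, ← map_pow]
    rfl
  have hσn : σ ^ n = 1 := by
    ext x
    rw [hpow, hn, pow_orderOf_eq_one, one_mul]
    rfl
  have hall : ∀ l ∈ σ.cycleType, l = n := by
    intro l hl
    apply Nat.dvd_antisymm
    · exact (Equiv.Perm.dvd_of_mem_cycleType hl).trans (orderOf_dvd_of_pow_eq_one hσn)
    · obtain ⟨τ, ρ, hmul, hdis, hcyc, hcard⟩ := Equiv.Perm.mem_cycleType_iff.1 hl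
      obtain ⟨x, hx⟩ := hcyc.nonempty_support
      have h1 : τ ^ l = 1 := by
        rw [← hcard, ← hcyc.orderOf, pow_orderOf_eq_one]
      have hρx : ρ x = x := by
        rcases hdis x with h | h
        · exact absurd h (Equiv.Perm.mem_support.1 hx)
        · exact h
      have h2 : (σ ^ l) x = x := by
        rw [hmul, hdis.commute.mul_pow, h1, one_mul]
        exact Equiv.Perm.pow_apply_eq_self_of_apply_eq_self hρx l
      rw [hpow] at h2
      have h3 : c ^ l = 1 := mul_right_cancel (b := x) (by rw [h2, one_mul])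
      exact orderOf_dvd_of_pow_eq_one h3
  have hrep := Multiset.eq_replicate_of_mem hall
  set m := Multiset.card σ.cycleType with hm
  have hsum : σ.cycleType.sum = Nat.card K := by
    rw [Equiv.Perm.sum_cycleType, Nat.card_eq_fintype_card]
    have : σ.support = Finset.univ := by
      ext x
      simp only [Equiv.Perm.mem_support, Finset.mem_univ, iff_true]
      intro h
      have h1 : c * x = x := h
      have h3 : c = 1 := mul_right_cancel (b := x) (by rw [h1, one_mul])
      rw [hn, h3, orderOf_one] at h2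
      norm_num at h2
    rw [this, Finset.card_univ]
  have hmn : m * n = Nat.card K := by
    rw [← hsum, hrep, Multiset.sum_replicate, smul_eq_mul]
  have hmodd : ¬ 2 ∣ m := by
    rw [← hmn, Nat.mul_div_cancel _ hn0] at ho
    exact ho
  rw [Equiv.Perm.sign_of_cycleType, hsum, ← hm, ← hmn]
  have he : Odd (m * n + m) := by
    have h1 : Even (m * n) := (even_iff_two_dvd.2 h2).mul_left m
    have h3 : Odd m := by
      rw [← Nat.not_even_iff_odd, even_iff_two_dvd]; exact hmodd
    exact h1.add_odd h3
  exact he.neg_one_pow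

theorem pf_sgr : T_SGR := by
  intro G _ _ K hK c hc h2 ho
  classical
  have : Fintype K := Fintype.ofFinite K
  set χ : K →* ℤˣ := Equiv.Perm.sign.comp (MulAction.toPermHom K K) with hχ
  set c' : K := ⟨c, hc⟩ with hc'
  have hoc : orderOf c' = orderOf c := by
    rw [← Subgroup.orderOf_coe c']
  have hχc : χ c' = -1 := by
    rw [hχ]
    apply sign_regular c'
    · rw [hoc]; exact h2
    · rw [hoc]; exact ho
  have hval : ∀ x : K, χ x ≠ 1 → χ x = -1 := fun x hx => (Int.units_eq_one_or _).resolve_left hx
  have hmem : ∀ x : K, (x : G) ∈ χ.ker.map K.subtype ↔ χ x = 1 := by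
    intro x
    constructor
    · rintro ⟨y, hy, hxy⟩
      have : y = x := Subtype.ext hxy
      rw [← this]
      exact hy
    · intro hx
      exact ⟨x, hx, rfl⟩
  have hconj : ∀ (g : G) (x : K), χ (MulAut.conjNormal g x) = χ x := by
    intro g x
    set e : Equiv.Perm K := (MulAut.conjNormal g : K ≃* K).toEquiv with he
    have h1 : MulAction.toPermHom K K (MulAut.conjNormal g x)
        = e * MulAction.toPermHom K K x * e⁻¹ := by
      ext y
      have h3 : e (x * e⁻¹ y) = (MulAut.conjNormal g x) * y := by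
        have h4 : e (x * e⁻¹ y) = e x * e (e⁻¹ y) := map_mul (MulAut.conjNormal g : K ≃* K) _ _
        rw [h4, show e (e⁻¹ y) = y from e.apply_symm_apply y]
        rfl
      exact congrArg Subtype.val h3.symm
    rw [hχ]
    simp only [MonoidHom.comp_apply]
    rw [h1, map_mul, map_mul, mul_comm (Equiv.Perm.sign e), mul_assoc, ← map_mul, mul_inv_cancel,
      map_one, mul_one]
  refine ⟨χ.ker.map K.subtype, ?_, ?_, ?_, ?_, ?_⟩
  · refine ⟨?_⟩
    rintro _ ⟨x, hx, rfl⟩ g
    refine ⟨MulAut.conjNormal g x, ?_, ?_⟩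
    · change χ _ = 1
      rw [hconj]
      exact hx
    · exact MulAut.conjNormal_apply g x
  · rintro _ ⟨x, _, rfl⟩
    exact x.2
  · intro h
    have := (hmem c').1 h
    rw [hχc] at this
    exact absurd this (by decide)
  · intro x hx y hy hxn hyn
    have h1 : χ ⟨x, hx⟩ ≠ 1 := fun h => hxn ((hmem ⟨x, hx⟩).2 h)
    have h3 : χ ⟨y, hy⟩ ≠ 1 := fun h => hyn ((hmem ⟨y, hy⟩).2 h)
    refine (hmem (⟨x, hx⟩ * ⟨y, hy⟩)).2 ?_
    rw [map_mul, hval _ h1, hval _ h3]
    decide
  · have hindex : χ.ker.index = 2 := by
      rw [Subgroup.index_eq_two_iff]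
      refine ⟨c', fun b => ?_⟩
      rw [MonoidHom.mem_ker, MonoidHom.mem_ker, map_mul, hχc]
      by_cases hb : χ b = 1
      · right
        refine ⟨hb, ?_⟩
        rw [hb]
        decide
      · left
        refine ⟨?_, hb⟩
        rw [hval b hb]
        decide
    have hcard : Nat.card (χ.ker.map K.subtype : Subgroup G) = Nat.card χ.ker :=
      Nat.card_congr (χ.ker.equivMapOfInjective K.subtype K.subtype_injective).symm.toEquiv
    rw [hcard, ← Subgroup.card_mul_index χ.ker, hindex, mul_comm]

end Pool.Agent.H19.FKSGR
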