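import Pool.Agent.H84.FK.Targets

set_option autoImplicit false

namespace Pool.Agent.H19.FKTB

open Pool.Agent.H84.FK

variable {G : Type} [Group G]

theorem mem_norm [Finite G] (X : Subgroup G) (g : G)
    (h : ∀ x ∈ X, g * x * g⁻¹ ∈ X) : g ∈ Subgroup.normalizer (X : Set G) := by
  have hinj : Function.Injective (fun x : X => (⟨g * x.1 * g⁻¹, h x.1 x.2⟩ : X)) := by
    intro x y hxy
    have h1 : g * x.1 * g⁻¹ = g * y.1 * g⁻¹ := congrArg Subtype.val hxy
    exact Subtype.ext (mul_left_cancel (mul_right_cancel h1))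
  have hsurj := Finite.injective_iff_surjective.1 hinj
  rw [Subgroup.mem_normalizer_iff]
  intro y
  refine ⟨h y, fun hy => ?_⟩
  obtain ⟨x, hx⟩ := hsurj ⟨_, hy⟩
  have h1 : g * x.1 * g⁻¹ = g * y * g⁻¹ := congrArg Subtype.val hx
  have h2 : x.1 = y := mul_left_cancel (mul_right_cancel h1)
  rw [← h2]
  exact x.2

/-- the elements of `r`-power order of an abelian subgroup -/
def Rr (M1 : Subgroup G) (hab : ∀ x ∈ M1, ∀ y ∈ M1, x * y = y * x) (r : ℕ) : Subgroup G where
  carrier := {x | x ∈ M1 ∧ ∃ k : ℕ, x ^ (r ^ k) = 1}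
  one_mem' := ⟨M1.one_mem, 0, one_pow _⟩
  mul_mem' := by
    rintro x y ⟨hx, k, hk⟩ ⟨hy, l, hl⟩
    refine ⟨M1.mul_mem hx hy, k + l, ?_⟩
    have hc : Commute x y := hab x hx y hy
    rw [hc.mul_pow, pow_add, pow_mul, hk, one_pow, mul_comm (r ^ k), pow_mul, hl, one_pow, one_mul]
  inv_mem' := by
    rintro x ⟨hx, k, hk⟩
    exact ⟨M1.inv_mem hx, k, by rw [inv_pow, hk, inv_one]⟩

theorem Rr_pg (M1 : Subgroup G) (hab : ∀ x ∈ M1, ∀ y ∈ M1, x * y = y * x) (r : ℕ) :
    IsPGroup r (Rr M1 hab r) := by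
  rintro ⟨x, hx, k, hk⟩
  exact ⟨k, Subtype.ext (by simpa using hk)⟩

/-- a normalised `r`-subgroup is contained in a Sylow subgroup -/
theorem syl [Finite G] (r : ℕ) (hr : r.Prime) (M R P : Subgroup G) (hRM : R ≤ M) (hPM : P ≤ M)
    (hR : IsPGroup r R) (hP : IsPGroup r P) (hn : ∀ p ∈ P, ∀ x ∈ R, p * x * p⁻¹ ∈ R)
    (hc : ∀ j : ℕ, r ^ j ∣ Nat.card M → r ^ j ∣ Nat.card P) : R ≤ P := by
  have : Fact r.Prime := ⟨hr⟩
  have h1 : P ≤ Subgroup.normalizer (R : Set G) := fun p hp => mem_norm R p (hn p hp)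
  have h2 : IsPGroup r (P ⊔ R : Subgroup G) := hP.to_sup_of_normal_right' hR h1
  obtain ⟨j, hj⟩ := (IsPGroup.iff_card).1 h2
  have h3 : Nat.card (P ⊔ R : Subgroup G) ∣ Nat.card P := by
    rw [hj]
    apply hc
    rw [← hj]
    exact Subgroup.card_dvd_of_le (sup_le hPM hRM)
  have h4 : P = P ⊔ R :=
    Subgroup.eq_of_le_of_card_ge le_sup_left (Nat.le_of_dvd Nat.card_pos h3)
  rw [h4]
  exact le_sup_right

/-- Sylow subgroup of a factor -/
theorem exSyl [Finite G] (r : ℕ) (hr : r.Prime) (M H : Subgroup G) (e : ℕ) (he : ¬ r ∣ e)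
    (hM : Nat.card M = Nat.card H * e) :
    ∃ P : Subgroup G, P ≤ H ∧ IsPGroup r P ∧
      ∀ j : ℕ, r ^ j ∣ Nat.card M → r ^ j ∣ Nat.card P := by
  have : Fact r.Prime := ⟨hr⟩
  obtain ⟨K, hK⟩ := Sylow.exists_subgroup_card_pow_prime (G := H) r
    (n := (Nat.card H).factorization r) (Nat.ordProj_dvd _ _)
  have hcard : Nat.card (K.map H.subtype) = r ^ (Nat.card H).factorization r := by
    rw [Subgroup.card_map_of_injective H.subtype_injective, hK]
  refine ⟨K.map H.subtype, ?_, IsPGroup.of_card hcard, fun j hj => ?_⟩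
  · rintro _ ⟨x, _, rfl⟩
    exact x.2
  · rw [hcard]
    rw [hM] at hj
    have hcop : Nat.Coprime (r ^ j) e := Nat.Coprime.pow_left j ((Nat.Prime.coprime_iff_not_dvd hr).2 he)
    have h1 : r ^ j ∣ Nat.card H := hcop.dvd_of_dvd_mul_right hj
    exact pow_dvd_pow r ((hr.pow_dvd_iff_le_factorization Nat.card_pos.ne').1 h1)

theorem pf_tb (hITO : T_ITO) (hKG : T_KG) (hTA : T_TA) (hC4 : T_C4) : T_TB := by
  intro G _ A B B0 M hCE hOv h1 h2
  have := hCE.fin
  obtain ⟨⟨t, htB, htB0⟩, hcB, hcG⟩ := hC4 G A B B0 hCE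
  -- trivial intersection
  have hint : ∀ x ∈ A, x ∈ B → x = 1 := by
    have hs : Function.Surjective (fun p : A × B => p.1.1 * p.2.1) := by
      intro g
      obtain ⟨a, ha, b, hb, e⟩ := hCE.fac g
      exact ⟨(⟨a, ha⟩, ⟨b, hb⟩), e.symm⟩
    have hb := hs.bijective_of_nat_card_le (by
      rw [Nat.card_prod, hcB, hcG]
      exact le_of_eq (by ring))
    intro x hxA hxB
    have h3 := hb.1 (a₁ := (⟨x, hxA⟩, (1 : B))) (a₂ := ((1 : A), ⟨x, hxB⟩)) (by simp)
    have h4 := congrArg (fun p : A × B => (p.1 : G)) h3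
    simpa using h4
  have hfac : ∀ m ∈ M, ∃ a ∈ A, ∃ b ∈ B, b ∈ M ∧ m = a * b := by
    intro m hm
    obtain ⟨a, ha, b, hb, e⟩ := hCE.fac m
    refine ⟨a, ha, b, hb, ?_, e⟩
    have : b = a⁻¹ * m := by rw [e]; group
    rw [this]
    exact M.mul_mem (M.inv_mem (hOv.le ha)) hm
  have hEB : ∀ x ∈ M ⊓ B, x ∈ B0 := fun x hx =>
    h1 x (Subgroup.mem_inf.1 hx).1 (Subgroup.mem_inf.1 hx).2
  have hcM : Nat.card M = Nat.card A * Nat.card (M ⊓ B : Subgroup G) := by
    rw [← Nat.card_prod]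
    symm
    apply Nat.card_congr
    refine Equiv.ofBijective (fun p : A × (M ⊓ B : Subgroup G) =>
      (⟨p.1.1 * p.2.1, M.mul_mem (hOv.le p.1.2) (Subgroup.mem_inf.1 p.2.2).1⟩ : M)) ⟨?_, ?_⟩
    · rintro ⟨a, b⟩ ⟨a', b'⟩ hab
      have h3 : a.1 * b.1 = a'.1 * b'.1 := congrArg Subtype.val hab
      have h4 : a'.1⁻¹ * a.1 = b'.1 * b.1⁻¹ := by
        calc a'.1⁻¹ * a.1 = a'.1⁻¹ * (a.1 * b.1) * b.1⁻¹ := by group
          _ = b'.1 * b.1⁻¹ := by rw [h3]; group
      have h5 : a'.1⁻¹ * a.1 = 1 := hint _ (A.mul_mem (A.inv_mem a'.2) a.2) (by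
        rw [h4]
        exact B.mul_mem (Subgroup.mem_inf.1 b'.2).2 (B.inv_mem (Subgroup.mem_inf.1 b.2).2))
      have h6 : a.1 = a'.1 := by
        have := congrArg (fun g => a'.1 * g) h5
        simpa using this
      have h7 : b.1 = b'.1 := by rw [h6] at h3; exact mul_left_cancel h3
      exact Prod.ext (Subtype.ext h6) (Subtype.ext h7)
    · rintro ⟨m, hm⟩
      obtain ⟨a, ha, b, hb, hbM, e⟩ := hfac m hm
      exact ⟨(⟨a, ha⟩, ⟨b, Subgroup.mem_inf.2 ⟨hbM, hb⟩⟩), Subtype.ext e.symm⟩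
  -- the commutator subgroup of `M`
  have hAbc : Ab (commutator M) := by
    apply hITO M (A.subgroupOf M) (B.subgroupOf M)
    · intro g
      obtain ⟨a, ha, b, hb, hbM, e⟩ := hfac g.1 g.2
      exact ⟨⟨a, hOv.le ha⟩, Subgroup.mem_subgroupOf.2 ha, ⟨b, hbM⟩,
        Subgroup.mem_subgroupOf.2 hb, Subtype.ext e⟩
    · intro x hx y hy
      exact Subtype.ext (hCE.abA x.1 (Subgroup.mem_subgroupOf.1 hx) y.1
        (Subgroup.mem_subgroupOf.1 hy))
    · intro x hx y hy
      exact Subtype.ext (hCE.abB x.1 (h1 x.1 x.2 (Subgroup.mem_subgroupOf.1 hx)) y.1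
        (h1 y.1 y.2 (Subgroup.mem_subgroupOf.1 hy)))
  obtain ⟨M1, hM1⟩ : ∃ M1 : Subgroup G, M1 = (commutator M).map M.subtype := ⟨_, rfl⟩
  have hM1m : ∀ x, x ∈ M1 ↔ ∃ h : x ∈ M, (⟨x, h⟩ : M) ∈ commutator M := by
    intro x
    rw [hM1, Subgroup.mem_map]
    constructor
    · rintro ⟨y, hy, rfl⟩
      exact ⟨y.2, hy⟩
    · rintro ⟨h, hx⟩
      exact ⟨⟨x, h⟩, hx, rfl⟩
  have hab : ∀ x ∈ M1, ∀ y ∈ M1, x * y = y * x := by
    intro x hx y hy
    obtain ⟨hx', hx⟩ := (hM1m x).1 hx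
    obtain ⟨hy', hy⟩ := (hM1m y).1 hy
    exact congrArg Subtype.val (hAbc _ hx _ hy)
  have hnorm : ∀ m ∈ M, ∀ x ∈ M1, m * x * m⁻¹ ∈ M1 := by
    intro m hm x hx
    obtain ⟨hx', hx⟩ := (hM1m x).1 hx
    have hN : (commutator M).Normal := inferInstance
    exact (hM1m _).2 ⟨M.mul_mem (M.mul_mem hm hx') (M.inv_mem hm),
      hN.conj_mem _ hx ⟨m, hm⟩⟩
  have hnR : ∀ (r : ℕ), ∀ m ∈ M, ∀ x ∈ Rr M1 hab r, m * x * m⁻¹ ∈ Rr M1 hab r := by
    rintro r m hm x ⟨hx, k, hk⟩
    refine ⟨hnorm m hm x hx, k, ?_⟩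
    rw [conj_pow, hk, mul_one, mul_inv_cancel]
  have hRM : ∀ r, Rr M1 hab r ≤ M := by
    rintro r x ⟨hx, -⟩
    exact ((hM1m x).1 hx).1
  have hB0n : ∀ x ∈ B0, t * x * t⁻¹ ∈ B0 := by
    intro x hx
    have h3 : t * x ∉ B0 := fun h => htB0 (by
      have : t = t * x * x⁻¹ := by group
      rw [this]
      exact B0.mul_mem h (B0.inv_mem hx))
    have h4 : t⁻¹ ∉ B0 := fun h => htB0 (by
      have := B0.inv_mem h
      rwa [inv_inv] at this)
    exact hCE.two.2 _ (B.mul_mem htB (hCE.two.1 hx)) _ (B.inv_mem htB) h3 h4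
  -- the main step
  have hRA : ∀ r : ℕ, r.Prime → Rr M1 hab r ≤ A := by
    intro r hr
    by_cases hE : r ∣ Nat.card (M ⊓ B : Subgroup G)
    · by_cases hA : r ∣ Nat.card A
      · exfalso
        by_cases hr2 : r = 2
        · subst hr2
          obtain ⟨z, hz⟩ := exists_prime_orderOf_dvd_card' 2 hE
          have hz1 : z.1 = 1 := by
            apply hTA G A B B0 M hCE hOv h1 h2 hA z.1 (Subgroup.mem_inf.1 z.2).1
              (Subgroup.mem_inf.1 z.2).2
            have h3 : z ^ 2 = 1 := by rw [← hz]; exact pow_orderOf_eq_one z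
            have h4 := congrArg Subtype.val h3
            rw [← pow_two]
            exact h4
          have h5 : z = 1 := Subtype.ext hz1
          rw [h5, orderOf_one] at hz
          omega
        · apply hKG G A B B0 hCE r hr hr2 hA
          exact hE.trans (Subgroup.card_dvd_of_le hEB)
      · -- `r` does not divide `card A`
        obtain ⟨P, hPE, hPg, hPc⟩ := exSyl r hr M (M ⊓ B) (Nat.card A) hA (by rw [hcM, mul_comm])
        have hRP : Rr M1 hab r ≤ P := syl r hr M _ P (hRM r) (hPE.trans inf_le_left)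
          (Rr_pg M1 hab r) hPg (fun p hp x hx => hnR r p ((hPE.trans inf_le_left) hp) x hx) hPc
        have hRB0 : Rr M1 hab r ≤ B0 := fun x hx => hEB x (hPE (hRP hx))
        have hbot : Rr M1 hab r = ⊥ := by
          by_contra hne
          have hnot : Subgroup.normalizer (Rr M1 hab r : Set G) ≠ ⊤ := by
            intro htop
            apply hne
            apply hCE.quo _ (Subgroup.normalizer_eq_top_iff.1 htop)
            have : Fact r.Prime := ⟨hr⟩
            have hnil : Group.IsNilpotent (Rr M1 hab r) := (Rr_pg M1 hab r).isNilpotent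
            infer_instance
          have hle : Subgroup.normalizer (Rr M1 hab r : Set G) ≤ M :=
            hOv.max _ (fun a ha => mem_norm _ a (hnR r a (hOv.le ha))) hnot
          have hB0M : B0 ≤ M := by
            intro b hb
            apply hle
            apply mem_norm
            intro x hx
            have : b * x = x * b := hCE.abB b hb x (hRB0 hx)
            rw [this, mul_assoc, mul_inv_cancel, mul_one]
            exact hx
          apply hne
          rw [Subgroup.eq_bot_iff_forall]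
          intro x hx
          exact h2 t htB htB0 x (hRM r hx) (hCE.two.1 (hRB0 hx)) (hB0M (hB0n x (hRB0 hx)))
        rw [hbot]
        exact bot_le
    · obtain ⟨P, hPA, hPg, hPc⟩ := exSyl r hr M A _ hE hcM
      exact (syl r hr M _ P (hRM r) (hPA.trans hOv.le) (Rr_pg M1 hab r) hPg
        (fun p hp x hx => hnR r p ((hPA.trans hOv.le) hp) x hx) hPc).trans hPA
  -- `M1 ≤ A`
  have hM1A : ∀ n : ℕ, ∀ x ∈ M1, orderOf x = n → x ∈ A := by
    intro n
    induction n using Nat.strong_induction_on with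
    | _ n ih =>
      intro x hx hn
      have hn0 : n ≠ 0 := by rw [← hn]; exact (orderOf_pos x).ne'
      by_cases hn1 : n = 1
      · rw [hn1, orderOf_eq_one_iff] at hn
        rw [hn]; exact A.one_mem
      · obtain ⟨k, m, hm, e⟩ := Nat.exists_eq_pow_mul_and_not_dvd hn0 n.minFac
          (Nat.minFac_prime hn1).ne_one
        set p := n.minFac with hp
        have hpp : p.Prime := Nat.minFac_prime hn1
        have hm0 : m ≠ 0 := by rintro rfl; exact hm (dvd_zero _)
        have hk0 : k ≠ 0 := by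
          rintro rfl
          apply hm
          have : p ∣ n := Nat.minFac_dvd n
          rwa [e, pow_zero, one_mul] at this
        have hcop : Nat.Coprime (p ^ k) m :=
          Nat.Coprime.pow_left k ((Nat.Prime.coprime_iff_not_dvd hpp).2 hm)
        have hx1 : x ^ m ∈ A := by
          apply hRA p hpp
          refine ⟨M1.pow_mem hx m, k, ?_⟩
          rw [← pow_mul, mul_comm, ← e, ← hn, pow_orderOf_eq_one]
        have hx2 : x ^ (p ^ k) ∈ A := by
          apply ih m _ _ (M1.pow_mem hx _)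
          · rw [orderOf_pow' x (pow_ne_zero k hpp.ne_zero), hn, e]
            rw [Nat.gcd_eq_right (Dvd.intro _ rfl)]
            exact Nat.mul_div_cancel_left m (Nat.pos_of_ne_zero (pow_ne_zero k hpp.ne_zero))
          · rw [e]
            have : 1 < p ^ k := Nat.one_lt_pow hk0 hpp.one_lt
            exact lt_mul_of_one_lt_left (Nat.pos_of_ne_zero hm0) this
        have hb := Nat.gcd_eq_gcd_ab (p ^ k) m
        rw [hcop.gcd_eq_one] at hb
        have hfin : x = (x ^ (p ^ k)) ^ (Nat.gcdA (p ^ k) m) * (x ^ m) ^ (Nat.gcdB (p ^ k) m) := by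
          rw [← zpow_natCast x (p ^ k), ← zpow_natCast x m, ← zpow_mul, ← zpow_mul, ← zpow_add,
            ← hb]
          simp
        rw [hfin]
        exact A.mul_mem (A.zpow_mem hx2 _) (A.zpow_mem hx1 _)
  intro m hm a ha
  have hcomm : m * a * m⁻¹ * a⁻¹ ∈ M1 := by
    refine (hM1m _).2 ⟨M.mul_mem (M.mul_mem (M.mul_mem hm (hOv.le ha)) (M.inv_mem hm))
      (M.inv_mem (hOv.le ha)), ?_⟩
    have := Subgroup.commutator_mem_commutator (Subgroup.mem_top (⟨m, hm⟩ : M))
      (Subgroup.mem_top (⟨a, hOv.le ha⟩ : M))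
    exact this
  have h3 : m * a * m⁻¹ = (m * a * m⁻¹ * a⁻¹) * a := by group
  rw [h3]
  exact A.mul_mem (hM1A _ _ hcomm rfl) ha

end Pool.Agent.H19.FKTB
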