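import Pool.Agent.H84.FK.Targets3

/-!
Module ZI of the board fk2_modules: a central involution of `A`.
-/

set_option autoImplicit false

namespace Pool.Agent.H19.FKZI

open Pool.Agent.H84.FK

theorem pf_zi (hFIX : T_FIX) (hD4 : T_D4) : T_ZI := by
  intro G _ A A0 B B0 hce h2
  have := hce.fin
  obtain ⟨⟨t, htA, htn⟩, -⟩ := hD4 G A A0 B B0 hce
  obtain ⟨hle, htwo⟩ := hce.twoA
  have hti : t⁻¹ ∈ A := A.inv_mem htA
  have htin : t⁻¹ ∉ A0 := fun h => htn (by simpa using A0.inv_mem h)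
  have hx : ∀ x ∈ A0, t * x * t⁻¹ ∈ A0 := by
    intro x hx
    have h1 : t * x ∉ A0 := fun h => htn (by simpa using A0.mul_mem h (A0.inv_mem hx))
    exact htwo (t * x) (A.mul_mem htA (hle hx)) t⁻¹ hti h1 htin
  obtain ⟨u, hu, huu, hune, htu⟩ := hFIX G A0 t hce.abA h2 hx (htwo t htA t htA htn htn)
  refine ⟨u, hu, huu, hune, ?_⟩
  intro a ha
  by_cases ha0 : a ∈ A0
  · exact hce.abA a ha0 u hu
  · have h1 : a * t ∈ A0 := htwo a ha t htA ha0 htn
    have h2 : (a * t) * u = u * (a * t) := hce.abA _ h1 u hu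
    have h3 : a * u * t = u * a * t := by
      rw [mul_assoc, ← htu, ← mul_assoc, h2, mul_assoc]
    exact mul_right_cancel h3

end Pool.Agent.H19.FKZI
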